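import Pool.Agent.Y977.DG.Lower

/-!
# The long-range discrete Gaussian chain: the variance at the origin has the order of the
real-valued Gaussian chain from below, at every temperature
-/

set_option autoImplicit false

namespace Pool.Agent.Results.MP_57c4e5_pr.VarianceOrder

/-- the height functions `ℤ → ℤ` which vanish off `{-N, ..., N}` -/
def Height (N : ℕ) : Type := {φ : ℤ → ℤ // ∀ x : ℤ, (N : ℤ) < |x| → φ x = 0}

/-- the energy: the sum over the unordered pairs `{x, y}`, `x ≠ y`, of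
`(φ x - φ y)² / |x - y|^α` (half of the sum over the ordered pairs) -/
noncomputable def energy (α : ℝ) (φ : ℤ → ℤ) : ℝ :=
  (1 / 2) * ∑' p : ℤ × ℤ,
    (if p.1 = p.2 then (0 : ℝ)
      else ((φ p.1 : ℝ) - (φ p.2 : ℝ)) ^ 2 / ((|p.1 - p.2| : ℤ) : ℝ) ^ α)

/-- the partition function at inverse temperature `β` -/
noncomputable def Z (α β : ℝ) (N : ℕ) : ℝ := ∑' φ : Height N, Real.exp (-β * energy α φ.1)

/-- the mean of the square of the height at the origin (its variance, as the law is symmetric) -/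
noncomputable def variance (α β : ℝ) (N : ℕ) : ℝ :=
  (∑' φ : Height N, (φ.1 0 : ℝ) ^ 2 * Real.exp (-β * energy α φ.1)) / Z α β N

/-- **Theorem.** For every `α ∈ (2, 3)` and every inverse temperature `β > 0` the variance of the
height at the origin of the discrete Gaussian chain on `{-N, ..., N}` with zero boundary condition
is at least `((α - 2) (3 - α) / (48 β)) (N + 1)^(α - 2)`, for all large `N`. -/
theorem result (α β : ℝ) (hα : 2 < α) (hα3 : α < 3) (hβ : 0 < β) :
    ∃ N₀ : ℕ, ∀ N : ℕ, N₀ ≤ N →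
      (α - 2) * (3 - α) / (48 * β) * ((N : ℝ) + 1) ^ (α - 2) ≤ variance α β N := by
  obtain ⟨N0, hN0⟩ := Pool.Agent.Y977.DG.lower_large hα hα3 (β := β / 2) (by positivity)
  refine ⟨N0, fun N hN => ?_⟩
  have h := hN0 N hN
  have hc : (α - 2) * (3 - α) / (96 * (β / 2)) = (α - 2) * (3 - α) / (48 * β) := by
    congr 1
    ring
  rw [hc] at h
  refine h.trans (le_of_eq ?_)
  have e : ∀ φ : Pool.Agent.Y977.DG.Om N, Real.exp (-β * energy α φ.1) =
      Real.exp (-((β / 2) * Pool.Agent.Y977.DG.En α (Pool.Agent.Y977.DG.re φ))) := by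
    intro φ
    unfold energy
    congr 1
    have e2 : (∑' p : ℤ × ℤ, (if p.1 = p.2 then (0 : ℝ)
        else ((φ.1 p.1 : ℝ) - (φ.1 p.2 : ℝ)) ^ 2 / ((|p.1 - p.2| : ℤ) : ℝ) ^ α)) =
        Pool.Agent.Y977.DG.En α (Pool.Agent.Y977.DG.re φ) := by
      unfold Pool.Agent.Y977.DG.En Pool.Agent.Y977.DG.h Pool.Agent.Y977.DG.re
      refine tsum_congr (fun p => ?_)
      by_cases hp : p.1 = p.2
      · rw [if_pos hp, if_pos (sub_eq_zero.2 hp), zero_mul]
      · rw [if_neg hp, if_neg (fun h => hp (sub_eq_zero.1 h)), Real.rpow_neg (by positivity),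
          div_eq_inv_mul]
    rw [e2]
    ring
  unfold variance Z Pool.Agent.Y977.DG.Ms Pool.Agent.Y977.DG.Zs
  unfold Height
  simp only [e]
  rfl

end Pool.Agent.Results.MP_57c4e5_pr.VarianceOrder
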